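import Pool.Agent.H91.AS5

set_option autoImplicit false

theorem Pool.Agent.Results.MP_4648ce_an.Image.result :
    ∀ L : ℝ → ℝ, L 0 = 0 →
    (∀ n : ℕ, 1 ≤ n → ∀ x ∈ Set.Ioc (1 / ((n : ℝ) + 1)) (1 / n), L x = n * (n + 1) * x - n) →
    (fun x => dimH (H91.AS.AS L (Set.Icc 0 1) x)) '' Set.Icc 0 1 = Set.Icc 0 (1 / 2) :=
  H91.AS.lurImage
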